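import Pool.Agent.R594.Star.CH
import Pool.Agent.T6.H71.QP.CH

/-!
# Consistently, a q-point which is a Fubini iterate of p-points need not be selective

The definitions (`PPoint`, `QPoint`, `Selective`, `TukeyLE`, `fubiniLim`, `FubiniIterate`) are in
`Pool.Agent.T6.H71.QP.Defs`. The forcing language is the one of `Pool.Agent.Helper126.Sus.Forc`: a
sentence is the set of the conditions which force it.

1. Some forcing notion forces CH (and preserves `ω₁`), and the translated sentence is CH.
2. In ZFC, if `W` is a p-point and `V n` are selective ultrafilters which are pairwise not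
   isomorphic, then the Fubini limit `lim_{n → W} V n` is a Fubini iterate of p-points of depth 2,
   and it is a q-point, but not selective.
3. CH implies that there is such a sequence.

Proof of 2. Let `f` be finite-to-one. On the fibre of `n` it is injective on a set `X n` in `V n`.
The images of the `V n` under `f` are p-points, and they are pairwise different because the `V n`
are not isomorphic. Hence there are pairwise disjoint sets in these images, and `f` is injective on
a set in the limit.
-/

set_option autoImplicit false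

namespace Pool.Agent.Results.MP_21276c_lc.NonSelectiveQPoint

open Cardinal Pool.Agent.Helper126.Sus.Forc Pool.Agent.R594.Star Pool.Agent.T6.H71.QP

theorem result :
    (∃ (P : Type) (_ : Preorder P), Nonempty P ∧ ∀ p : P,
      p ∈ OmegaOnePreserved P ∧ p ∈ ContinuumHypothesis P) ∧
    ((∃ E : K1 → ℕ → ℕ, ∀ f : ℕ → ℕ, ∃ α, E α = f) ↔ (𝔠 : Cardinal.{0}) = ℵ₁) ∧
    (∀ (W : Ultrafilter ℕ) (V : ℕ → Ultrafilter ℕ), PPoint W → (∀ n, Selective (V n)) →
      (∀ n m, n ≠ m → ∀ f : ℕ → ℕ, (V n).map f ≠ V m) →
      FubiniIterate 2 (fubiniLim W V) ∧ QPoint (fubiniLim W V) ∧ ¬ Selective (fubiniLim W V)) ∧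
    ((𝔠 : Cardinal.{0}) = ℵ₁ → ∃ U V : Ultrafilter ℕ,
      FubiniIterate 2 U ∧ QPoint V ∧ TukeyLE V U ∧ ¬ Selective V) := by
  have h : ∀ (W : Ultrafilter ℕ) (V : ℕ → Ultrafilter ℕ), PPoint W → (∀ n, Selective (V n)) →
      (∀ n m, n ≠ m → ∀ f : ℕ → ℕ, (V n).map f ≠ V m) →
      FubiniIterate 2 (fubiniLim W V) ∧ QPoint (fubiniLim W V) ∧ ¬ Selective (fubiniLim W V) :=
    fun W V hW hV hd => ⟨.lim 1 W V hW fun n => .ppoint _ (hV n).ppoint,
      qpoint_lim hW.1 hV hd, not_selective_lim hW.1 fun n => (hV n).1⟩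
  refine ⟨exists_forcing_ch, ch_iff, h, fun hCH => ?_⟩
  obtain ⟨V, hV, hd⟩ := exists_selective hCH.symm
  obtain ⟨h1, h2, h3⟩ := h (V 0) V (hV 0).ppoint hV hd
  exact ⟨_, _, h1, h2, TukeyLE.refl _, h3⟩

end Pool.Agent.Results.MP_21276c_lc.NonSelectiveQPoint
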